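import Pool.Agent.H215_MRP.PIDLoc

set_option autoImplicit false

universe u

namespace Pool.Agent.Results.MP_76b292_lc.PIDLocal

open Cardinal Set Filter Pool.Agent.H215_MRP

/-- The local form of `(*)` at regular cardinals follows from the P-ideal dichotomy. Assume PID and let `U` be a
uniform indecomposable ultrafilter on the regular uncountable strong limit cardinal `κ`. Then for every family `S` of
at most `κ` subsets of `κ`, the restriction of `U` to `S` is the limit, along an ultrafilter `D` on `ω`, of countably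
many `κ`-complete uniform ultrafilters `G i` on `S`: every pattern of fewer than `κ` members of `S` with respect to
`G i` is realised by `κ` many points of `κ`. -/
theorem result (hP : PID.{u}) {κ : Cardinal.{u}} (hκ : ℵ₀ < κ) (hs : κ.IsStrongLimit) (hr : κ.IsRegular)
    (U : Ultrafilter (Car κ)) (hu : IsUniform κ U) (hi : IsIndecomposable κ U)
    (S : Set (Set (Car κ))) (hS : #S ≤ κ) :
    ∃ (D : Ultrafilter ℕ) (G : ℕ → Set (Set (Car κ))),
      (∀ i, ∀ Y : Set (Set (Car κ)), Y ⊆ S → #Y < κ → #{α : Car κ | ∀ B ∈ Y, (B ∈ G i ↔ α ∈ B)} = κ) ∧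
      ∀ B ∈ S, (B ∈ U ↔ ∀ᶠ i in (D : Filter ℕ), B ∈ G i) :=
  pid_local hP hκ hs hr U hu hi S hS

end Pool.Agent.Results.MP_76b292_lc.PIDLocal
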