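import Pool.Agent.H215_PID.Main
import Pool.Agent.H215_MRP.Main

set_option autoImplicit false

universe u

namespace Pool.Agent.Results.MP_76b292_lc.Q1Full

open Cardinal
open Pool.Agent.H215_MRP Pool.Agent.H215_PID

/-- The mapping reflection principle implies `(*)`, and the P-ideal dichotomy does not: if PFA holds and there are
infinitely many measurable cardinals, then there is a forcing poset `P` such that every condition forces that the
P-ideal dichotomy holds and that `(*)` fails. -/
theorem result : (MRP.{u} → Star.{u}) ∧
    (PFA.{u} → (∃ c : ℕ → Cardinal.{u}, StrictMono c ∧ ∀ n, IsMeasurable (c n)) →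
      ∃ (P : Type u) (_ : Preorder P), Nonempty P ∧ (∀ p : P, p ∈ fPID P) ∧ ∀ p : P, p ∈ fnot (fStar P)) :=
  ⟨star_of_mrp, Pool.Agent.H215_PID.main⟩

end Pool.Agent.Results.MP_76b292_lc.Q1Full
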